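import Mathlib
import Pool.Agent.Lib.MP_3550b5_nt.AC.Ar

open Pool.Agent.Lib.MP_3550b5_nt

/-- Points of height zero on all elliptic curves over the rationals. For every prime `p ≥ 5` there
is a constant `C` such that for all integers `a ≠ 0` and `l, T ≥ 1` with `|a| ≤ 2 ^ T` there are at
most `C T ^ 5 l ^ 5` integers `b`, `|b| ≤ 2 ^ l`, for which the curve `E : y^2 = x^3 + a x + b` has
good ordinary reduction at `p` and has a rational point `Q = (A / D ^ 2, B / D ^ 3)`, with integers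
`A, B, D`, `D ≠ 0`, which reduces to the origin modulo `p` (`p ∣ D`) and to a nonsingular point
modulo every prime (`2 B` and `3 A ^ 2 + a D ^ 4` are coprime), whose size is at most
`|D| ≤ 2 ^ T`, `|A| ≤ 4 ^ T`, and whose canonical cyclotomic `p`-adic height is zero. -/
theorem Pool.Agent.Results.MP_3550b5_nt.AllCurves.result (p : ℕ) [Fact p.Prime] (hp : 5 ≤ p) :
    ∃ C : ℕ, ∀ a : ℤ, a ≠ 0 → ∀ l T : ℕ, 1 ≤ l → 1 ≤ T → |a| ≤ 2 ^ T →
      ∀ X : Finset ℤ, (∀ b ∈ X, |b| ≤ 2 ^ l ∧ GoodOrdinary p a b ∧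
        ∃ h : (curve a b).Point → (curve a b).Point → ℚ_[p], IsCanonicalHeight p a b h ∧
          ∃ (A B D : ℤ) (hQ : (curve a b).Nonsingular ((A : ℚ) / (D : ℚ) ^ 2) ((B : ℚ) / (D : ℚ) ^ 3)),
            D ≠ 0 ∧ (p : ℤ) ∣ D ∧ IsCoprime (2 * B) (3 * A ^ 2 + a * D ^ 4) ∧
              |D| ≤ 2 ^ T ∧ |A| ≤ 4 ^ T ∧ h (.some _ _ hQ) (.some _ _ hQ) = 0) →
        X.card ≤ C * (T ^ 5 * l ^ 5) := by
  obtain ⟨C, hC⟩ := AC.main_count p hp
  exact ⟨C, fun a ha l T hl hT haT X hX => hC a ha l T hl hT haT X fun b hb =>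
    ⟨(hX b hb).1, (hX b hb).2⟩⟩
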