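import Mathlib
import Pool.Agent.Lib.MP_3550b5_nt.RG.GeoN
import Pool.Agent.Lib.MP_3550b5_nt.RG.Reg

open Pool.Agent.Lib.MP_3550b5_nt

/-- Generic subgroups of small corank have non-zero `p`-adic regulators. Let
`E : y^2 = x^3 + a x + b` be an elliptic curve over the rationals with good ordinary reduction at
the prime `p ≥ 5`, let `B` be its canonical cyclotomic `p`-adic height pairing, and let
`P 0, ..., P (r - 1)` be linearly independent rational points. The regulator of points
`T 0, ..., T (k - 1)` is `det (B (T i, T j))`, which is `1` for `k = 0`.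
(1) Let `n ^ 2 * (n + 5) ≤ 2 * m`. There is a nonzero polynomial `F` over the rationals in the
coefficients of `m` linear forms such that, if `F φ ≠ 0`, then for all `k ≤ n` and all linearly
independent integral vectors `x 0, ..., x (k - 1)` killed by the `m` forms `φ` the regulator of the
`k` combinations of the `P i` with the coefficients `x 0, ..., x (k - 1)` is different from `0`.
(2) Let `T 0, ..., T (t - 1)` be rational points which together with the `P i` are linearly
independent and have nonzero regulator, and let `m ≥ t^2 + 3 t + 4`, or `m ≥ 3` if `t = 0`. There is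
a nonzero polynomial `F` as above such that, if `F φ ≠ 0`, the regulator of `X, T 0, ..., T (t - 1)`
is different from `0` for every nonzero combination `X` of the `P i` whose coefficients are killed
by the `m` forms `φ`; and for a nonempty finite set `S` of integers this regulator is zero for at
most `2 ^ r * r! * 2 ^ (r - m) * #S ^ m` nonzero combinations `X` with coefficients in `S`. -/
theorem Pool.Agent.Results.MP_3550b5_nt.GenericSubgroups.result (p : ℕ) [Fact p.Prime]
    (hp : 5 ≤ p) (a b : ℤ) (hord : GoodOrdinary p a b)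
    (B : (curve a b).Point → (curve a b).Point → ℚ_[p]) (hB : IsCanonicalHeight p a b B)
    (r : ℕ) (P : Fin r → (curve a b).Point) (hP : LinearIndependent ℤ P) :
    (∀ n m : ℕ, n ^ 2 * (n + 5) ≤ 2 * m → ∃ F : MvPolynomial (Fin m × Fin r) ℚ, F ≠ 0 ∧
      ∀ φ : Fin m × Fin r → ℤ, MvPolynomial.eval (fun v => (φ v : ℚ)) F ≠ 0 →
        ∀ k ≤ n, ∀ x : Fin k → Fin r → ℤ, LinearIndependent ℤ x →
          (∀ e j, ∑ i, φ (j, i) * x e i = 0) →
            (Matrix.of fun i j => B (∑ l, x i l • P l) (∑ l, x j l • P l)).det ≠ 0) ∧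
    (∀ (t m : ℕ) (T : Fin t → (curve a b).Point), LinearIndependent ℤ (Sum.elim T P) →
      (Matrix.of fun i j => B (T i) (T j)).det ≠ 0 →
      (t ^ 2 + 3 * t + 4 ≤ m ∨ (t = 0 ∧ 3 ≤ m)) →
        (∃ F : MvPolynomial (Fin m × Fin r) ℚ, F ≠ 0 ∧ ∀ φ : Fin m × Fin r → ℤ,
          MvPolynomial.eval (fun v => (φ v : ℚ)) F ≠ 0 → ∀ x : Fin r → ℤ, x ≠ 0 →
            (∀ j, ∑ i, φ (j, i) * x i = 0) →
              (Matrix.of fun i j : Fin (t + 1) =>
                B ((Fin.cons (∑ l, x l • P l) T : Fin (t + 1) → (curve a b).Point) i)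
                  ((Fin.cons (∑ l, x l • P l) T : Fin (t + 1) → (curve a b).Point) j)).det ≠
                    0) ∧
        (∀ S : Finset ℤ, S.Nonempty → {x : Fin r → ℤ | (∀ i, x i ∈ S) ∧ x ≠ 0 ∧
          (Matrix.of fun i j : Fin (t + 1) =>
            B ((Fin.cons (∑ l, x l • P l) T : Fin (t + 1) → (curve a b).Point) i)
              ((Fin.cons (∑ l, x l • P l) T : Fin (t + 1) → (curve a b).Point) j)).det =
                0}.ncard ≤ 2 ^ r * (r.factorial * 2 ^ (r - m)) * S.card ^ m)) := by
  have hΔ : 4 * a ^ 3 + 27 * b ^ 2 ≠ 0 := by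
    intro h0
    exact hord.1 (by rw [h0]; exact dvd_zero _)
  exact ⟨fun n m hm => MP3550b5.RG.tuple_forms hp hΔ hB hP hm,
    fun t m T hTR hT hm => ⟨MP3550b5.RG.reg_forms hp hΔ hB hTR hT hm,
      fun S hS => MP3550b5.RG.reg_grid hp hΔ hB hTR hT hm S hS⟩⟩
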