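import Mathlib
import Pool.Agent.Lib.MP_3550b5_nt.SV.FFin

open Pool.Agent.Lib.MP_3550b5_nt

open scoped Classical in
/-- A `p`-adic form of Silverman's specialization theorem. Let `a, b` be integral binary forms of
degree `4 d, 6 d`, `d ≥ 1`, defining a family `E_t : y^2 = x^3 + a x + b` of curves over the
projective line with nonconstant `j`-invariant, minimal in the sense that there is no nonconstant
form `F` with `F ^ 4 ∣ a` and `F ^ 6 ∣ b`, and let `P 0, ..., P (r-1)` be linearly independent points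
of the generic fibre over `ℚ(t)`, given by forms `X i`, `Y i`, `W i` as
`(X i / W i ^ 2, Y i / W i ^ 3)`. There is a finite set `𝓛` of primes such that for every prime
`p ≥ 5` and every `k` there is a constant `C` with the following property. Let `n` be prime to `p`,
`v` a `p`-adic number and `e` a natural number. The rational numbers `t` with denominator `n` such
that
 * `l ^ k` does not divide the discriminant `4 a(t)^3 + 27 b(t)^2` for `l` in `𝓛`,
 * `E_t` has good ordinary reduction at `p`,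
 * the `p`-adic regulator of the specializations at `t` of the `P i` (or, if `v = 0`, the regulator
   of `E_t`, if `E_t` has rank `r`) is at distance at most `p ^ (-C e)` from `v`
have numerators in at most `C` residue classes modulo `p ^ e`. -/
theorem Pool.Agent.Results.MP_3550b5_nt.Specialization.result
    (r d : ℕ) (hr : 1 ≤ r) (hd : 1 ≤ d) (a b : MvPolynomial (Fin 2) ℤ)
    (ha : a.IsHomogeneous (4 * d)) (hb : b.IsHomogeneous (6 * d))
    (hΔ : 4 * a ^ 3 + 27 * b ^ 2 ≠ 0)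
    (hmin : ∀ F : MvPolynomial (Fin 2) ℚ, F ^ 4 ∣ a.map (Int.castRingHom ℚ) →
      F ^ 6 ∣ b.map (Int.castRingHom ℚ) → IsUnit F)
    (hj : ∀ c e : ℤ, MvPolynomial.C c * a ^ 3 = MvPolynomial.C e * b ^ 2 → c = 0 ∧ e = 0)
    (P : Fin r → (genericCurve a b).Point) (hP : LinearIndependent ℤ P)
    (w : Fin r → ℕ) (X Y W : Fin r → MvPolynomial (Fin 2) ℤ)
    (hS : ∀ i, IsPointForm d a b (w i) (X i) (Y i) (W i) (P i)) :
    ∃ 𝓛 : Finset ℕ, (∀ l ∈ 𝓛, l.Prime) ∧
      ∀ (p : ℕ) [Fact p.Prime], 5 ≤ p → ∀ k : ℕ, ∃ C : ℕ,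
        ∀ (v : ℚ_[p]) (e n : ℕ), ¬ p ∣ n → ∃ A : Finset ℤ, A.card ≤ C ∧
          ∀ t : ℚ, t.den = n →
            (∀ l ∈ 𝓛, ¬ (l : ℤ) ^ k ∣ formVal (4 * a ^ 3 + 27 * b ^ 2) t) →
              FibreNear p v (C * e) a b X Y W t → ∃ m ∈ A, (p : ℤ) ^ e ∣ t.num - m := by
  obtain ⟨𝓛, h𝓛, H⟩ := SV.sv_main hr hd ha hb hΔ hmin hj hP hS
  refine ⟨𝓛, h𝓛, fun p hp hp5 k => ?_⟩
  obtain ⟨C, hC, -⟩ := H p hp5 k
  exact ⟨C, hC⟩
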