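import Mathlib
import Pool.Agent.Lib.MP_3550b5_nt.B.Final

open Pool.Agent.Lib.MP_3550b5_nt

open scoped Classical in
/-- Schneider's conjecture for 100 percent of the members of weighted families of elliptic curves
with marked points. Let the parameters `z i` have weights `wt i ≥ 1`, let `a, b` be integral
polynomials, weighted homogeneous of degree `4 d, 6 d`, `d ≥ 1`, defining a family
`E_z : y^2 = x^3 + a(z) x + b(z)`, minimal in the sense that there is no nonconstant polynomial `F`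
with `F ^ 4 ∣ a` and `F ^ 6 ∣ b`, and let `P 0, ..., P (r-1)` be linearly independent points of the
generic member, given by weighted homogeneous polynomials `X i`, `Y i`, `W i` as
`(X i / W i ^ 2, Y i / W i ^ 3)`. Then for every `ε > 0` and all sufficiently large `M ≤ N` and all
families `v` of `p`-adic numbers `v p`, one for each prime `p`, at most `ε N ^ (∑ wt i)` of the
integral vectors `z` with `|z i| ≤ N ^ wt i` are exceptional, where `z` is exceptional if, for some
prime `5 ≤ p ≤ M ^ (1 / (4 (r + 1)))` for which `E_z` has good ordinary reduction, the `p`-adic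
regulator of the values of the `P i` at `z` (or, if `v p = 0`, the regulator of `E_z`, if `E_z` has
rank `r`) is at distance at most `p ^ (-K)` from `v p`, for some `K` with `p ^ K ≥ M`. -/
theorem Pool.Agent.Lib.MP_3550b5_nt.Kept.WeightedFamilies.result
    (n r d : ℕ) (hr : 1 ≤ r) (hd : 1 ≤ d) (wt : Fin n → ℕ) (hwt : ∀ i, 1 ≤ wt i)
    (a b : MvPolynomial (Fin n) ℤ) (ha : a.IsWeightedHomogeneous wt (4 * d))
    (hb : b.IsWeightedHomogeneous wt (6 * d)) (hΔ : 4 * a ^ 3 + 27 * b ^ 2 ≠ 0)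
    (hmin : ∀ F : MvPolynomial (Fin n) ℚ, F ^ 4 ∣ a.map (Int.castRingHom ℚ) →
      F ^ 6 ∣ b.map (Int.castRingHom ℚ) → IsUnit F)
    (P : Fin r → (familyCurve a b).Point) (hP : LinearIndependent ℤ P)
    (w : Fin r → ℕ) (X Y W : Fin r → MvPolynomial (Fin n) ℤ)
    (hS : ∀ i, IsMarkedPoint wt d a b (w i) (X i) (Y i) (W i) (P i)) (ε : ℝ) (hε : 0 < ε) :
    ∃ M₀ : ℕ, ∀ M N : ℕ, M₀ ≤ M → M ≤ N → ∀ v : (p : ℕ) → [Fact p.Prime] → ℚ_[p],
      (Set.ncard {z : Fin n → ℤ | (∀ i, |z i| ≤ (N : ℤ) ^ wt i) ∧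
        ∃ (p : ℕ) (_ : Fact p.Prime) (K : ℕ), 5 ≤ p ∧
          (p : ℝ) ≤ (M : ℝ) ^ (1 / (4 * ((r : ℝ) + 1))) ∧ M ≤ p ^ K ∧
          MemberNear p (v p) K a b X Y W z} : ℝ) ≤ ε * (N : ℝ) ^ (∑ i, wt i) :=
  members_all hwt hr hd ha hb hΔ hmin P hP hS hε
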